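import Pool.Agent.helper7.AL.Spec

/-!
# Row ba:KSB (Kovari, Sos, Turan)
-/

set_option autoImplicit false

namespace Pool.Agent.AL

open Finset Pool.Agent.helper85.FC Pool.Agent.helper11.MK

theorem KSB_count {K N : ℕ} {L R : Finset ℤ} {E : Finset (ℤ × ℤ)} (hL : #L ≤ N)
    (hE : E ⊆ L ×ˢ R)
    (hno : ∀ X ⊆ L, ∀ Y ⊆ R, #X = K → #Y = K → ∃ x ∈ X, ∃ y ∈ Y, (x, y) ∉ E) :
    ∃ g : ℤ → ℕ, #E ≤ ∑ y ∈ R, (g y + K) ∧
      ∑ y ∈ R, g y ^ K ≤ K.factorial * (K * N ^ K) := by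
  classical
  let S : ℤ → Finset ℤ := fun y => L.filter fun x => (x, y) ∈ E
  refine ⟨fun y => #(S y) + 1 - K, ?_, ?_⟩
  · have h1 : #E = ∑ y ∈ R, #(E.filter fun p => p.2 = y) :=
      card_eq_sum_card_fiberwise fun p hp => (mem_product.1 (hE hp)).2
    rw [h1]
    refine sum_le_sum fun y _ => ?_
    have h2 : #(E.filter fun p => p.2 = y) ≤ #(S y) := by
      refine card_le_card_of_injOn Prod.fst ?_ ?_
      · intro p hp
        have hp' := mem_filter.1 (mem_coe.1 hp)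
        have h3 := mem_product.1 (hE hp'.1)
        refine mem_coe.2 (mem_filter.2 ⟨h3.1, ?_⟩)
        have h4 : (p.1, y) = p := by
          rw [← hp'.2]
        rw [h4]
        exact hp'.1
      · intro p hp q hq hpq
        have hp' := (mem_filter.1 (mem_coe.1 hp)).2
        have hq' := (mem_filter.1 (mem_coe.1 hq)).2
        exact Prod.ext hpq (hp'.trans hq'.symm)
    show #(E.filter fun p => p.2 = y) ≤ #(S y) + 1 - K + K
    omega
  · have h1 : ∀ y, (#(S y) + 1 - K) ^ K ≤ K.factorial * #(powersetCard K (S y)) := by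
      intro y
      rw [card_powersetCard, ← Nat.descFactorial_eq_factorial_mul_choose]
      exact Nat.pow_sub_le_descFactorial _ _
    have h2 : ∑ y ∈ R, #(powersetCard K (S y)) ≤ K * N ^ K := by
      have h3 : ∀ y ∈ R, powersetCard K (S y) =
          (powersetCard K L).filter fun X => ∀ x ∈ X, (x, y) ∈ E := by
        intro y _
        ext X
        rw [mem_powersetCard, mem_filter, mem_powersetCard]
        constructor
        · rintro ⟨h, hc⟩
          exact ⟨⟨fun x hx => (mem_filter.1 (h hx)).1, hc⟩, fun x hx => (mem_filter.1 (h hx)).2⟩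
        · rintro ⟨⟨h, hc⟩, h'⟩
          exact ⟨fun x hx => mem_filter.2 ⟨h hx, h' x hx⟩, hc⟩
      rw [sum_congr rfl fun y hy => by rw [h3 y hy]]
      have h4 := sum_card_bipartiteAbove_eq_sum_card_bipartiteBelow
        (s := R) (t := powersetCard K L) (r := fun (y : ℤ) (X : Finset ℤ) => ∀ x ∈ X, (x, y) ∈ E)
      have h5 : ∑ y ∈ R, #((powersetCard K L).filter fun X => ∀ x ∈ X, (x, y) ∈ E) =
          ∑ X ∈ powersetCard K L, #(R.filter fun y => ∀ x ∈ X, (x, y) ∈ E) := h4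
      rw [h5]
      have h6 : ∀ X ∈ powersetCard K L, #(R.filter fun y => ∀ x ∈ X, (x, y) ∈ E) ≤ K := by
        intro X hX
        obtain ⟨hXL, hXc⟩ := mem_powersetCard.1 hX
        by_contra hlt
        obtain ⟨Y, hY, hYc⟩ := exists_subset_card_eq (le_of_lt (not_le.1 hlt))
        obtain ⟨x, hx, y, hy, hxy⟩ := hno X hXL Y (hY.trans (filter_subset _ _)) hXc hYc
        exact hxy ((mem_filter.1 (hY hy)).2 x hx)
      refine (sum_le_sum h6).trans ?_
      rw [sum_const, card_powersetCard, smul_eq_mul, mul_comm]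
      refine Nat.mul_le_mul_left _ ?_
      exact (Nat.choose_le_pow _ _).trans (Nat.pow_le_pow_left hL K)
    calc ∑ y ∈ R, (#(S y) + 1 - K) ^ K ≤ ∑ y ∈ R, K.factorial * #(powersetCard K (S y)) :=
          sum_le_sum fun y _ => h1 y
      _ = K.factorial * ∑ y ∈ R, #(powersetCard K (S y)) := by rw [mul_sum]
      _ ≤ _ := Nat.mul_le_mul_left _ h2

theorem KSB : KSB_stmt := by
  intro K hK
  have hK0 : (0 : ℝ) < K := by exact_mod_cast hK
  have hK1 : (1 : ℝ) ≤ K := by exact_mod_cast hK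
  obtain ⟨C1, hC1⟩ : ∃ C1 : ℝ, C1 = 2 ^ (K - 1) * (K.factorial * K) := ⟨_, rfl⟩
  have hf1 : (1 : ℝ) ≤ K.factorial := by exact_mod_cast Nat.one_le_iff_ne_zero.2 (Nat.factorial_ne_zero K)
  have hC11 : 1 ≤ C1 := by
    rw [hC1]
    have h1 : (1 : ℝ) ≤ 2 ^ (K - 1) := one_le_pow₀ (by norm_num)
    have h2 : (1 : ℝ) ≤ K.factorial * K := one_le_mul_of_one_le_of_one_le hf1 hK1
    exact one_le_mul_of_one_le_of_one_le h1 h2
  have hexp : (1 : ℝ) ≤ 2 - 1 / (K : ℝ) := by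
    have : 1 / (K : ℝ) ≤ 1 := (div_le_one hK0).2 hK1
    linarith
  refine ⟨C1 + 2 * K, by positivity, ?_⟩
  intro N L R E hL hR hE hbig
  by_contra hcon
  have hno : ∀ X ⊆ L, ∀ Y ⊆ R, #X = K → #Y = K → ∃ x ∈ X, ∃ y ∈ Y, (x, y) ∉ E := by
    intro X hX Y hY hXc hYc
    by_contra h
    refine hcon ⟨X, hX, Y, hY, hXc, hYc, fun x hx y hy => ?_⟩
    by_contra hxy
    exact h ⟨x, hx, y, hy, hxy⟩
  obtain ⟨g, h1, h2⟩ := KSB_count hL hE hno
  rcases Nat.eq_zero_or_pos N with hN | hN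
  · subst hN
    have hR0 : R = ∅ := card_eq_zero.1 (by omega)
    rw [hR0, sum_empty] at h1
    have h3 : (#E : ℝ) = 0 := by exact_mod_cast Nat.le_zero.1 h1
    rw [h3] at hbig
    have h4 : (0 : ℝ) ≤ (C1 + 2 * K) * ((0 : ℕ) : ℝ) ^ (2 - 1 / (K : ℝ)) := by positivity
    linarith
  · have hN1 : (1 : ℝ) ≤ N := by exact_mod_cast hN
    have hN0 : (0 : ℝ) < N := by linarith
    obtain ⟨P, hP⟩ : ∃ P : ℝ, P = (N : ℝ) ^ (2 - 1 / (K : ℝ)) := ⟨_, rfl⟩
    have hP0 : 0 < P := by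
      rw [hP]
      exact Real.rpow_pos_of_pos hN0 _
    have hNP : (N : ℝ) ≤ P := by
      rw [hP]
      calc (N : ℝ) = (N : ℝ) ^ (1 : ℝ) := (Real.rpow_one _).symm
        _ ≤ _ := Real.rpow_le_rpow_of_exponent_le hN1 hexp
    have hPK : P ^ K = (N : ℝ) ^ (2 * K - 1) := by
      rw [hP, ← Real.rpow_natCast, ← Real.rpow_mul hN0.le, ← Real.rpow_natCast]
      congr 1
      rw [Nat.cast_sub (by omega)]
      push_cast
      field_simp
    obtain ⟨G, hG⟩ : ∃ G : ℝ, G = ∑ y ∈ R, (g y : ℝ) := ⟨_, rfl⟩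
    have hG0 : 0 ≤ G := by
      rw [hG]
      positivity
    have hGK : G ^ K ≤ C1 * (N : ℝ) ^ (2 * K - 1) := by
      obtain ⟨k, rfl⟩ : ∃ k, K = k + 1 := ⟨K - 1, by omega⟩
      have h3 := pow_sum_div_card_le_sum_pow (s := R) (f := fun y => (g y : ℝ))
        (fun i _ => Nat.cast_nonneg _) k
      rcases Nat.eq_zero_or_pos (#R) with hR0 | hRpos
      · have hR0' : R = ∅ := card_eq_zero.1 hR0
        rw [hG, hR0', sum_empty, zero_pow (by omega)]
        positivity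
      have hRp : (0 : ℝ) < (#R : ℝ) ^ k := by
        have : (0 : ℝ) < #R := by exact_mod_cast hRpos
        positivity
      rw [div_le_iff₀ hRp, ← hG] at h3
      have h4 : ∑ y ∈ R, (g y : ℝ) ^ (k + 1) ≤ (k + 1).factorial * (((k + 1 : ℕ) : ℝ) * (N : ℝ) ^ (k + 1)) := by
        exact_mod_cast h2
      have h5 : (#R : ℝ) ^ k ≤ (2 * N) ^ k := by
        refine pow_le_pow_left₀ (Nat.cast_nonneg _) ?_ k
        exact_mod_cast hR
      calc G ^ (k + 1) ≤ (∑ y ∈ R, (g y : ℝ) ^ (k + 1)) * (#R : ℝ) ^ k := h3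
        _ ≤ ((k + 1).factorial * (((k + 1 : ℕ) : ℝ) * (N : ℝ) ^ (k + 1))) * (2 * N) ^ k :=
          mul_le_mul h4 h5 (by positivity) (by positivity)
        _ = C1 * (N : ℝ) ^ (2 * (k + 1) - 1) := by
          rw [hC1, show 2 * (k + 1) - 1 = (k + 1) + k by omega, pow_add, mul_pow,
            show k + 1 - 1 = k by omega]
          ring
    have hGP : G ≤ C1 * P := by
      by_contra hlt
      have hlt := not_le.1 hlt
      have h3 : (C1 * P) ^ K < G ^ K := pow_lt_pow_left₀ hlt (by positivity) (by omega)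
      rw [mul_pow, hPK] at h3
      have h4 : C1 ≤ C1 ^ K := le_self_pow₀ hC11 (by omega)
      have h5 : C1 * (N : ℝ) ^ (2 * K - 1) ≤ C1 ^ K * (N : ℝ) ^ (2 * K - 1) :=
        mul_le_mul_of_nonneg_right h4 (by positivity)
      linarith
    have h6 : (#E : ℝ) ≤ G + #R * K := by
      have h7 : ((#E : ℕ) : ℝ) ≤ ((∑ y ∈ R, (g y + K) : ℕ) : ℝ) := by exact_mod_cast h1
      refine h7.trans (le_of_eq ?_)
      rw [hG]
      push_cast
      rw [sum_add_distrib, sum_const, nsmul_eq_mul]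
    have h7 : (#R : ℝ) ≤ 2 * N := by exact_mod_cast hR
    have h8 : (#R : ℝ) * K ≤ 2 * K * P := by
      calc (#R : ℝ) * K ≤ 2 * N * K := mul_le_mul_of_nonneg_right h7 hK0.le
        _ = 2 * K * N := by ring
        _ ≤ 2 * K * P := mul_le_mul_of_nonneg_left hNP (by positivity)
    rw [← hP] at hbig
    linarith

end Pool.Agent.AL
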